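import Pool.Agent.Work.MP_2ceb02_lc.Tree

/-!
# Secure computation of circuits of bounded treewidth
-/

namespace Pool.Agent.Results.MP_2ceb02_lc.BoundedTreewidth

open Pool.Agent.Work.MP_2ceb02_lc

/-- For every boolean circuit `C` (not necessarily layered) with `n` inputs, `m` outputs and `s`
nodes whose underlying graph has a tree decomposition of width at most `t`, every `l ≥ 16 (t + 1)`,
every `N ≥ 1` and every distribution `own` of the inputs among `N` parties there is a correct
`N`-party protocol for `C` in the correlated randomness model, perfectly secure against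
semi-honest corruption of up to `N - 1` parties, in which at most
`n + N (m + 8 (t + 1) n / l)` bits are broadcast and every party stores at most
`n + (n + m) 4 ^ l` bits. -/
theorem result (N n m s t l : ℕ) (hN : 0 < N) (hl : 16 * (t + 1) ≤ l) (own : Fin n → Fin N)
    (C : Circuit n m s) (hC : Nonempty (TreeDec C t)) :
    ∃ P : Protocol N n m own, P.Correct C.eval ∧ P.Secure C.eval ∧
      (P.comm : ℝ) ≤ n + N * (m + 8 * (t + 1) * n / l) ∧
      P.StorageLe (n + (n + m) * 4 ^ l) := by
  obtain ⟨T⟩ := hC
  refine C.prot_bounded (t + 1 : ℝ) (by positivity) l (by omega) ?_ hN own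
    T.hasWeightedSeparators
  exact_mod_cast hl

end Pool.Agent.Results.MP_2ceb02_lc.BoundedTreewidth
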