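import Pool.Agent.Work.MP_2ceb02_lc.Third.Final

/-!
# Secure computation of arbitrary circuits with one third of a bit per gate and party
-/

namespace Pool.Agent.Results.MP_2ceb02_lc.EveryCircuit

open Pool.Agent.Work.MP_2ceb02_lc

/-- Every boolean circuit (not necessarily layered) with `s` nodes and excess fan-out `D` has, for
every `k`, a perfectly secure protocol in the correlated randomness model with at most
`n + N (m + min s D / 3 + 5 s / (2 k))` broadcast bits and linear storage, and one with at most
`n + N (m + min s D / 3 + 25 s / log log s)` broadcast bits and polynomial storage. -/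
theorem result (N n m s : ℕ) (hN : 0 < N) (C : Circuit n m s) (own : Fin n → Fin N) :
    (∀ k : ℕ, 1 ≤ k → ∃ P : Protocol N n m own, P.Correct C.eval ∧ P.Secure C.eval ∧
      (P.comm : ℝ) ≤ n + N * (m + (min (s : ℝ) C.excess / 3 + 5 / 2 * (s / k))) ∧
      P.StorageLe (n + (s + m) * 2 ^ (2 ^ (5 * (k + 1))))) ∧
    (3 ≤ s → ∃ P : Protocol N n m own, P.Correct C.eval ∧ P.Secure C.eval ∧
      (P.comm : ℝ) ≤ n + N * (m + (min (s : ℝ) C.excess / 3 +
        25 * s / Real.logb 2 (Real.logb 2 s))) ∧
      P.StorageLe (n + 4 * (s + m) * s)) :=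
  ⟨fun k hk => C.prot_third_k hN own k hk, fun hs => C.prot_third hN own hs⟩

end Pool.Agent.Results.MP_2ceb02_lc.EveryCircuit
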