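import Pool.Agent.Work.MP_2ceb02_lc.Xor.Dini

/-!
# Secure computation of circuits with free exclusive or gates and barely sublinear separators
-/

namespace Pool.Agent.Results.MP_2ceb02_lc.FreeXorSeparators

open Pool.Agent.Work.MP_2ceb02_lc MeasureTheory Filter

/-- Boolean circuits (not necessarily layered) with `s` gates of fan-in two and any number of
exclusive or gates of any fan-in, such that the graph on the `s` gates (inputs and exclusive or
gates are not vertices) has hereditary separators of size `k η(k)`, where `η` is nonincreasing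
with `∫ η(u) / u du < ∞`, have perfectly secure protocols in the correlated randomness model with
communication `n + N (m + o(s))` and polynomial storage. -/
theorem result (η : ℝ → ℝ) (h0 : ∀ u, 1 < u → 0 ≤ η u) (hanti : AntitoneOn η (Set.Ioi 1))
    (hint : IntegrableOn (fun u => η u / u) (Set.Ioi 1)) :
    ∃ g : ℕ → ℝ, (g =o[atTop] fun s : ℕ => (s : ℝ)) ∧
      (∀ s : ℕ, 256 ≤ s → g s = 9 * s * ∫ u in Set.Ioi (Real.logb 2 s / 4), η u / u) ∧
      ∀ (N n m s : ℕ), 0 < N → ∀ (own : Fin n → Fin N) (C : XorCircuit n m s),
        C.HasSeparators (fun k => k * η k) →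
          ∃ P : Protocol N n m own, P.Correct C.eval ∧ P.Secure C.eval ∧
            (P.comm : ℝ) ≤ n + N * (m + g s) ∧ P.StorageLe (n + 9 * (s + m) * (s + 1) ^ 2) :=
  XorCircuit.prot_dini η h0 hanti hint

end Pool.Agent.Results.MP_2ceb02_lc.FreeXorSeparators
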