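import Pool.Agent.Work.MP_2ceb02_lc.Sym.Mean

/-!
# Secure computation of circuits of generalized symmetric gates
-/

namespace Pool.Agent.Results.MP_2ceb02_lc.SymmetricGates

open Pool.Agent.Work.MP_2ceb02_lc

/-- Every circuit of `G` generalized symmetric gates (the gate `g` is an arbitrary function of a
sum in `ZMod (md g)` of arbitrarily many terms, a term being any function of `l` exclusive ors of
inputs and earlier gates) has a perfectly secure protocol in the correlated randomness model with
`n + N (m + ∑ g, (⌈log₂ (md g)⌉ + 1))` broadcast bits, which is at most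
`n + N (m + G (2 + log₂ (q)))` for the average modulus `q`, and polynomial storage. -/
theorem result (N n m G l : ℕ) (hN : 0 < N) (own : Fin n → Fin N) (C : SumCircuit n m G l) :
    ∃ P : Protocol N n m own, P.Correct C.eval ∧ P.Secure C.eval ∧
      P.comm = n + N * (m + ∑ g, (Nat.clog 2 (C.md g) + 1)) ∧
      (P.comm : ℝ) ≤ n + N * (m + G * (2 + Real.logb 2 ((∑ g, (C.md g : ℝ)) / G))) ∧
      P.StorageLe (n + m + ∑ g, (C.md g + Nat.clog 2 (C.md g) * (1 + 2 ^ l * C.terms g))) := by
  obtain ⟨P, h1, h2, h3, h4⟩ := C.exists_protocol hN own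
  refine ⟨P, h1, h2, h3, ?_, h4⟩
  rw [h3]
  have := sum_clog_le C.md C.md_pos
  push_cast at this ⊢
  have hN0 : (0 : ℝ) ≤ N := Nat.cast_nonneg N
  have h5 := mul_le_mul_of_nonneg_left (add_le_add_right this (m : ℝ)) hN0
  linarith

end Pool.Agent.Results.MP_2ceb02_lc.SymmetricGates
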